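import Pool.Agent.Lib.MP_6bd702_ann.HPAnn

/-!
# Critical bond percolation on the square lattice: crossings of half-annuli, order `(r/R)^(1/3)`

In critical bond percolation on the half-plane `{(a, b) : b ≤ a}` of `ℤ²` the half-annulus between
the boxes `[-r, r]²` and `[-R, R]²` (`0 ≤ r ≤ R`) is crossed by an open path with a probability
between two constant multiples of `((r + 1) / (R + 1)) ^ (1 / 3)`.
-/

set_option autoImplicit false

namespace Pool.Agent.Results.MP_6bd702_pr.HalfPlaneArm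

open Pool.Agent.Perc

theorem result : ∃ c C : ℝ, 0 < c ∧ 0 < C ∧ ∀ r R : ℕ, r ≤ R →
    c * (((r : ℝ) + 1) / (R + 1)) ^ (1 / 3 : ℝ) ≤ hpAnn r R ∧
      hpAnn r R ≤ C * (((r : ℝ) + 1) / (R + 1)) ^ (1 / 3 : ℝ) := by
  obtain ⟨c, hc, h⟩ := AnnH.hpAnn_ge
  obtain ⟨C, hC, h'⟩ := AnnH.hpAnn_le
  exact ⟨c, C, hc, hC, fun r R hrR => ⟨h r R hrR, h' r R hrR⟩⟩

end Pool.Agent.Results.MP_6bd702_pr.HalfPlaneArm
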