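import Pool.Agent.Lib.MP_6bd702_zc.Y055
import Pool.Agent.Lib.MP_6bd702_z.Main
import Pool.Agent.Lib.MP_6bd702_zc.Y051
import Pool.Agent.Lib.MP_6bd702_zc.BridgeC3
import Pool.Agent.Lib.MP_6bd702_zc.OccFinal

/-!
# Critical bond percolation: dimensions of the scaling limits of the outer perimeter

For critical bond percolation in the box `{0, …, n}²` let `∂ₙ` be the outer perimeter of a cluster of
largest Euclidean diameter (ties broken by any rule), traced as a closed lattice curve and divided by
`n`. The laws of `∂ₙ` are tight in the metric of curves up to reparametrisation, so that every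
sequence of scales has a subsequence along which they converge, and for every limit law `μ` along
any sequence of scales, `μ`-almost surely the trace has Hausdorff dimension `7 / 4`, the curve is
not self-avoiding, and its outer boundary (the boundary of the unbounded component of the complement
of the trace) has Hausdorff dimension `4 / 3`.
-/

set_option autoImplicit false

namespace Pool.Agent.Results.MP_6bd702_pr.ScalingLimits

open Pool.Agent.Perc Pool.Agent.PercD Pool.Agent.PercS5 Filter Topology MeasureTheory

theorem result : ∀ sel : ℕ → Finset Edg → ℤ × ℤ,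
    (∀ n, ∀ T ⊆ boxE n, sel n T ∈ Box n ∧
      ∀ v ∈ Box n, Metric.diam (clS T v) ≤ Metric.diam (clS T (sel n T))) →
    IsTightMeasureSet (Set.range fun n => (lawP n (sel n) : Measure Curve)) ∧
    ∀ φ : ℕ → ℕ, Tendsto φ atTop atTop →
      (∃ ψ : ℕ → ℕ, StrictMono ψ ∧ ∃ μ : ProbabilityMeasure Curve,
        Tendsto (fun k => lawP (φ (ψ k)) (sel (φ (ψ k)))) atTop (𝓝 μ)) ∧
      ∀ μ : ProbabilityMeasure Curve, Tendsto (fun k => lawP (φ k) (sel (φ k))) atTop (𝓝 μ) →
        ∀ᵐ c : Curve ∂(μ : Measure Curve), dimH (c.trace : Set ℂ) = 7 / 4 ∧ ¬ c.SelfAvoiding ∧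
          dimH (outB (c.trace : Set ℂ)) = 4 / 3 :=
  fun sel hsel => scaling_full_of targetTight_holds targetExist_holds targetCurve_holds
    (targetOutCurve_of (targetOutB_of Pool.Agent.Perc.TTBd.targetC1
      (Pool.Agent.Perc6.targetC3_of Pool.Agent.Occ.occHyp) targetB3_holds)) sel hsel

end Pool.Agent.Results.MP_6bd702_pr.ScalingLimits
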